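import Pool.Agent.W206.ND.Stm

/-! The core estimate (part ND-CR). -/

set_option autoImplicit false

namespace Pool.Agent.W511.ND.CR

open Filter Topology Pool.Agent.W206.ND

theorem ee_add (x y : ℝ) : ee (x + y) = ee x * ee y := by
  unfold ee
  rw [← Complex.exp_add]
  congr 1
  push_cast
  ring

theorem norm_ee (x : ℝ) : ‖ee x‖ = 1 := by
  unfold ee
  rw [show 2 * (Real.pi : ℂ) * Complex.I * (x : ℂ) = ((2 * Real.pi * x : ℝ) : ℂ) * Complex.I by
    push_cast; ring]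
  exact Complex.norm_exp_ofReal_mul_I _

theorem ee_int (n : ℤ) : ee (n : ℝ) = 1 := by
  unfold ee
  rw [Complex.exp_eq_one_iff]
  exact ⟨n, by push_cast; ring⟩

theorem ee_zero : ee 0 = 1 := by simpa using ee_int 0

theorem ee_nat_mul (u : ℕ) (z : ℝ) : ee (u * z) = ee z ^ u := by
  unfold ee
  rw [← Complex.exp_nat_mul]
  congr 1
  push_cast
  ring

theorem sum_ee {v : ℕ} {t : ℤ} (hv : 1 ≤ v) (h : ¬ (v : ℤ) ∣ t) :
    ∑ u ∈ Finset.range v, ee (-(t * u / v)) = 0 := by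
  have hv0 : (v : ℝ) ≠ 0 := by positivity
  have h1 : ∀ u ∈ Finset.range v, ee (-(t * u / v)) = ee (-(t / v)) ^ u := by
    intro u _
    rw [← ee_nat_mul]
    congr 1
    ring
  rw [Finset.sum_congr rfl h1]
  have h2 : ee (-(t / v)) ^ v = 1 := by
    rw [← ee_nat_mul]
    have : (v : ℝ) * (-(t / v)) = ((-t : ℤ) : ℝ) := by push_cast; field_simp
    rw [this, ee_int]
  have h3 : ee (-(t / v)) ≠ 1 := by
    intro h3
    unfold ee at h3
    rw [Complex.exp_eq_one_iff] at h3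
    obtain ⟨n, hn⟩ := h3
    have h4 : (((-(t / v) : ℝ)) : ℂ) = (n : ℂ) := by
      have h5 : (2 * (Real.pi : ℂ) * Complex.I) ≠ 0 := Complex.two_pi_I_ne_zero
      apply mul_left_cancel₀ h5
      rw [hn]; ring
    have h5 : (-(t / v) : ℝ) = (n : ℝ) := by exact_mod_cast h4
    have h6 : (t : ℝ) = -(n * v) := by
      field_simp at h5
      linarith
    apply h
    refine ⟨-n, ?_⟩
    have h7 : (t : ℤ) = -(n * v) := by exact_mod_cast h6
    rw [h7]; ring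
  have h4 := geom_sum_mul (ee (-(t / v))) v
  rw [h2, sub_self] at h4
  exact (mul_eq_zero.1 h4).resolve_right (sub_ne_zero.2 h3)

theorem KK_add {b v : ℕ} (hv : 1 ≤ v) (t : ℤ) (y : ℝ) : KK b v (t + t * v) y = KK b v t y := by
  have hv0 : (v : ℝ) ≠ 0 := by positivity
  unfold KK
  refine Finset.sum_congr rfl fun w _ => ?_
  congr 1
  have h1 : (-((((t + t * v : ℤ)) : ℝ) * w / v) : ℝ) = (-(t * w / v)) + ((-(t * w) : ℤ) : ℝ) := by
    push_cast
    field_simp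
    ring
  rw [h1, ee_add, ee_int, mul_one]

theorem core (hZF : S_ZF) (hCY : S_CY) (hMX : S_MX) {b : ℕ} {t : ℤ} (hb : 2 ≤ b) {L : ℕ}
    (hL : 1 ≤ L) (hvt : ¬ ((b ^ L - 1 : ℕ) : ℤ) ∣ t) {c : ℂ} {C₁ C₂ : ℝ} (hC₁ : 0 ≤ C₁)
    (hC₂ : 0 ≤ C₂)
    (hBD : ∀ (i m : ℕ), 1 ≤ i → i < L → ((b ^ L - 1 : ℕ) : ℤ) - b < b * m →
      (b : ℤ) * m < ((b ^ L - 1 : ℕ) : ℤ) + b → ∀ z₀ : ℝ,
      ‖∑ k ∈ Finset.range m,
        ee (-((t * (b : ℝ) ^ i) * (z₀ + k / ((b ^ L - 1 : ℕ) : ℝ))))‖ ≤ C₁)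
    (hMN : ∀ (v m : ℕ) (z₀ : ℝ), 1 ≤ v → 0 ≤ z₀ → z₀ * v < 1 → (v : ℤ) - b < b * m →
      (b : ℤ) * m < v + b →
      ‖∑ k ∈ Finset.range m, ee (-(t * (z₀ + k / v))) - v * c‖ ≤ C₂)
    (x : ℝ) (N : ℕ) (ε : ℝ) (hε : 0 ≤ ε)
    (hU : ∀ u < b ^ L - 1,
      (Z0 b (x + u / ((b ^ L - 1 : ℕ) : ℝ)) N : ℝ) ≤ (1 / (b : ℝ) + ε) * N) :
    ((b ^ L - 1 : ℕ) : ℝ) * ‖c‖ *
      ‖∑ n ∈ (Finset.range N).filter (fun n => n % L = 0), ee (t * x * (b : ℝ) ^ n)‖ ≤
      (2 * ((b ^ L - 1 : ℕ) : ℝ) * ε + 1 + C₁ + C₂) * N := by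
  have hbL : 2 ≤ b ^ L := by
    calc 2 ≤ b := hb
      _ = b ^ 1 := (pow_one b).symm
      _ ≤ b ^ L := Nat.pow_le_pow_right (by omega) hL
  have hpowL : ((b : ℤ)) ^ L = ((b ^ L - 1 : ℕ) : ℤ) + 1 := by
    rw [Nat.cast_sub (by omega)]
    push_cast
    ring
  have hMXt := hMX b L N t x hb hL
  have hMX0 := hMX b L N 0 x hb hL
  generalize hvdef : b ^ L - 1 = v at *
  have hv : 1 ≤ v := by omega
  have hvR : (0 : ℝ) < v := by exact_mod_cast hv
  have hbR : (0 : ℝ) < b := by exact_mod_cast (by omega : 0 < b)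
  set F : ℕ → ℝ := fun u => ∑ n ∈ Finset.range N, ff b ((x + u / (v : ℝ)) * (b : ℝ) ^ n) with hF
  have hFU : ∀ u < v, F u ≤ (1 / (b : ℝ) + ε) * N := by
    intro u hu
    rw [hF]
    change ∑ n ∈ Finset.range N, ff b ((x + u / (v : ℝ)) * (b : ℝ) ^ n) ≤ _
    rw [← hZF b _ N hb]
    exact hU u hu
  -- the sum of the frequencies
  have hsumF : (N : ℝ) * (v / b - 1) ≤ ∑ u ∈ Finset.range v, F u := by
    have h1 : ((∑ u ∈ Finset.range v, F u : ℝ) : ℂ) =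
        ((∑ n ∈ Finset.range N, ∑ w ∈ Finset.range v, ff b (x * (b : ℝ) ^ n + w / v) : ℝ) : ℂ) := by
      rw [Complex.ofReal_sum, Complex.ofReal_sum]
      have h2 : ∀ u ∈ Finset.range v, ((F u : ℝ) : ℂ) =
          ee (-(((0 : ℤ) : ℝ) * u / (v : ℝ))) * ((∑ n ∈ Finset.range N,
            ff b ((x + u / (v : ℝ)) * (b : ℝ) ^ n) : ℝ) : ℂ) := by
        intro u _
        rw [Int.cast_zero, zero_mul, zero_div, neg_zero, ee_zero, one_mul]
      rw [Finset.sum_congr rfl h2, hMX0]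
      refine Finset.sum_congr rfl fun n _ => ?_
      unfold KK
      rw [Complex.ofReal_sum]
      refine Finset.sum_congr rfl fun w _ => ?_
      rw [zero_mul, Int.cast_zero, zero_mul, zero_div, neg_zero, ee_zero, one_mul]
    have h2 : ∑ u ∈ Finset.range v, F u =
        ∑ n ∈ Finset.range N, ∑ w ∈ Finset.range v, ff b (x * (b : ℝ) ^ n + w / v) := by
      exact_mod_cast h1
    rw [h2]
    have h3 : ∀ n ∈ Finset.range N, ((v : ℝ) / b - 1) ≤
        ∑ w ∈ Finset.range v, ff b (x * (b : ℝ) ^ n + w / v) := by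
      intro n _
      obtain ⟨m, z₀, -, -, hm, -, hs, -⟩ := hCY b v (x * (b : ℝ) ^ n) hb hv
      rw [hs]
      have h4 : (v : ℝ) - b < b * m := by exact_mod_cast hm
      rw [div_sub_one hbR.ne', div_le_iff₀ hbR]
      linarith
    have h4 := Finset.sum_le_sum h3
    rw [Finset.sum_const, Finset.card_range, nsmul_eq_mul] at h4
    exact h4
  -- the left side
  have hLeft : ‖∑ u ∈ Finset.range v, ee (-(t * u / (v : ℝ))) * ((F u : ℝ) : ℂ)‖ ≤
      2 * v * ε * N + N := by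
    have h1 : ∑ u ∈ Finset.range v, ee (-(t * u / (v : ℝ))) * ((F u : ℝ) : ℂ) =
        ∑ u ∈ Finset.range v, ee (-(t * u / (v : ℝ))) * ((F u - N / b : ℝ) : ℂ) := by
      have h2 : ∀ u ∈ Finset.range v, ee (-(t * u / (v : ℝ))) * ((F u - N / b : ℝ) : ℂ) =
          ee (-(t * u / (v : ℝ))) * ((F u : ℝ) : ℂ) -
            ee (-(t * u / (v : ℝ))) * ((N / b : ℝ) : ℂ) := by
        intro u _
        rw [Complex.ofReal_sub, mul_sub]
      rw [Finset.sum_congr rfl h2, Finset.sum_sub_distrib, ← Finset.sum_mul, sum_ee hv hvt,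
        zero_mul, sub_zero]
    rw [h1]
    refine (norm_sum_le _ _).trans ?_
    have h2 : ∀ u ∈ Finset.range v, ‖ee (-(t * u / (v : ℝ))) * ((F u - N / b : ℝ) : ℂ)‖ ≤
        2 * ε * N + N / b - F u := by
      intro u hu
      rw [norm_mul, norm_ee, one_mul, Complex.norm_real, Real.norm_eq_abs]
      have h3 := hFU u (Finset.mem_range.1 hu)
      have h4 : 0 ≤ ε * N := by positivity
      have h5 : (1 / (b : ℝ) + ε) * N = N / b + ε * N := by ring
      rw [h5] at h3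
      rw [abs_le]
      constructor <;> linarith
    refine (Finset.sum_le_sum h2).trans ?_
    rw [Finset.sum_sub_distrib, Finset.sum_const, Finset.card_range, nsmul_eq_mul]
    have h3 : (v : ℝ) * (2 * ε * N + N / b) = 2 * v * ε * N + N * (v / b) := by ring
    rw [h3]
    have h4 : (N : ℝ) * (v / b - 1) = N * (v / b) - N := by ring
    rw [h4] at hsumF
    linarith
  -- the right side
  have hRight : ∀ n ∈ Finset.range N,
      ‖KK b v (t * (b : ℤ) ^ (L - n % L)) (x * (b : ℝ) ^ n) -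
        v * c * (if n % L = 0 then ee (t * x * (b : ℝ) ^ n) else 0)‖ ≤ C₁ + C₂ := by
    intro n _
    by_cases hn : n % L = 0
    · rw [if_pos hn, hn, Nat.sub_zero, hpowL, show t * ((v : ℤ) + 1) = t + t * v by ring,
        KK_add hv]
      obtain ⟨m, z₀, hz0, hz1, hm1, hm2, -, hK⟩ := hCY b v (x * (b : ℝ) ^ n) hb hv
      rw [hK t]
      have h1 := hMN v m z₀ hv hz0 hz1 hm1 hm2
      have h2 : ee (t * (x * (b : ℝ) ^ n)) * ∑ k ∈ Finset.range m, ee (-(t * (z₀ + k / v))) -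
          v * c * ee (t * x * (b : ℝ) ^ n) = ee (t * (x * (b : ℝ) ^ n)) *
            (∑ k ∈ Finset.range m, ee (-(t * (z₀ + k / v))) - v * c) := by
        rw [mul_assoc (t : ℝ) x]; ring
      rw [h2, norm_mul, norm_ee, one_mul]
      linarith
    · rw [if_neg hn, mul_zero, sub_zero]
      obtain ⟨m, z₀, hz0, hz1, hm1, hm2, -, hK⟩ := hCY b v (x * (b : ℝ) ^ n) hb hv
      rw [hK, norm_mul, norm_ee, one_mul]
      have h3 : n % L < L := Nat.mod_lt _ (by omega)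
      have h1 := hBD (L - n % L) m (by omega) (by omega) hm1 hm2 z₀
      have h2 : ∀ k ∈ Finset.range m,
          ee (-(((t * (b : ℤ) ^ (L - n % L) : ℤ) : ℝ) * (z₀ + k / v))) =
          ee (-((t * (b : ℝ) ^ (L - n % L)) * (z₀ + k / (v : ℝ)))) := by
        intro k _
        push_cast
        rfl
      rw [Finset.sum_congr rfl h2]
      linarith
  have hsum := (norm_sum_le (Finset.range N) (fun n =>
      KK b v (t * (b : ℤ) ^ (L - n % L)) (x * (b : ℝ) ^ n) -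
        v * c * (if n % L = 0 then ee (t * x * (b : ℝ) ^ n) else 0))).trans
    (Finset.sum_le_sum hRight)
  rw [Finset.sum_sub_distrib, ← Finset.mul_sum, ← Finset.sum_filter, ← hMXt, Finset.sum_const,
    Finset.card_range, nsmul_eq_mul] at hsum
  have hfin : ‖(v : ℂ) * c * ∑ n ∈ (Finset.range N).filter (fun n => n % L = 0),
      ee (t * x * (b : ℝ) ^ n)‖ ≤ (2 * v * ε * N + N) + N * (C₁ + C₂) := by
    have h1 := norm_sub_norm_le ((v : ℂ) * c * ∑ n ∈ (Finset.range N).filter (fun n => n % L = 0),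
      ee (t * x * (b : ℝ) ^ n)) (∑ u ∈ Finset.range v, ee (-(t * u / (v : ℝ))) * ((F u : ℝ) : ℂ))
    rw [norm_sub_rev] at h1
    have h2 : ‖∑ u ∈ Finset.range v, ee (-(t * u / (v : ℝ))) * ((F u : ℝ) : ℂ) -
      (v : ℂ) * c * ∑ n ∈ (Finset.range N).filter (fun n => n % L = 0),
      ee (t * x * (b : ℝ) ^ n)‖ ≤ N * (C₁ + C₂) := hsum
    linarith
  rw [norm_mul, norm_mul, Complex.norm_natCast] at hfin
  refine hfin.trans (le_of_eq ?_)
  ring

theorem main : S_CR := by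
  intro hZF hCY hBD hMN hMX b t hb ht
  obtain ⟨C₁, L₁, hBD⟩ := hBD b t hb ht
  obtain ⟨c, C₂, hc, hMN⟩ := hMN b t hb ht
  have hcn : 0 < ‖c‖ := norm_pos_iff.2 hc
  have ht0 : t ≠ 0 := by
    rintro rfl
    exact ht (dvd_zero _)
  refine ⟨2 * (1 + max C₁ 0 + max C₂ 0) / ‖c‖, L₁ + t.natAbs + 1, fun L hL x hx ε hε => ?_⟩
  have hbL : 2 ^ L ≤ b ^ L := Nat.pow_le_pow_left hb L
  have hL2 : L < 2 ^ L := Nat.lt_two_pow_self
  have hvt : ¬ ((b ^ L - 1 : ℕ) : ℤ) ∣ t := by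
    intro h
    have h1 := Int.natAbs_dvd_natAbs.2 h
    rw [Int.natAbs_natCast] at h1
    have h2 := Nat.le_of_dvd (Int.natAbs_pos.2 ht0) h1
    omega
  set ε' : ℝ := ε * ‖c‖ / 2 with hε'
  have hε'0 : 0 < ε' := by positivity
  have hev : ∀ᶠ N : ℕ in atTop, ∀ u ∈ Finset.range (b ^ L - 1),
      (Z0 b (x + u / ((b ^ L - 1 : ℕ) : ℝ)) N : ℝ) ≤ (1 / (b : ℝ) + ε') * N := by
    rw [Filter.eventually_all_finset]
    intro u _
    have h1 := hx ((u : ℚ) / ((b ^ L - 1 : ℕ) : ℚ)) ε' hε'0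
    have h2 : (((u : ℚ) / ((b ^ L - 1 : ℕ) : ℚ) : ℚ) : ℝ) = u / ((b ^ L - 1 : ℕ) : ℝ) := by
      rw [Rat.cast_div, Rat.cast_natCast, Rat.cast_natCast]
    rw [h2] at h1
    exact h1
  filter_upwards [hev] with N hN
  have h1 := core hZF hCY hMX hb (L := L) (by omega) hvt (c := c) (le_max_right C₁ 0)
    (le_max_right C₂ 0)
    (fun i m h1 h2 h3 h4 z₀ => (hBD L i m (by omega) h1 h2 h3 h4 z₀).trans (le_max_left _ _))
    (fun v m z₀ h1 h2 h3 h4 h5 => (hMN v m z₀ h1 h2 h3 h4 h5).trans (le_max_left _ _))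
    x N ε' hε'0.le (fun u hu => hN u (Finset.mem_range.2 hu))
  set V : ℝ := ((b ^ L - 1 : ℕ) : ℝ) with hV
  have hVpos : 0 < V := by
    rw [hV]; exact_mod_cast (by omega : 0 < b ^ L - 1)
  have hVb : (b : ℝ) ^ L ≤ 2 * V := by
    rw [hV]
    have : b ^ L ≤ 2 * (b ^ L - 1) := by omega
    exact_mod_cast this
  have hbLpos : (0 : ℝ) < (b : ℝ) ^ L := by positivity
  have hVc : 0 < V * ‖c‖ := by positivity
  rw [← le_div_iff₀' hVc] at h1
  refine h1.trans ?_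
  have hD : 0 ≤ 1 + max C₁ 0 + max C₂ 0 := by positivity
  have h2 : (2 * V * ε' + 1 + max C₁ 0 + max C₂ 0) * N / (V * ‖c‖) =
      ((1 + max C₁ 0 + max C₂ 0) / (V * ‖c‖) + ε) * N := by
    rw [hε']
    field_simp
    ring
  rw [h2]
  refine mul_le_mul_of_nonneg_right ?_ (Nat.cast_nonneg N)
  have h3 : (1 + max C₁ 0 + max C₂ 0) / (V * ‖c‖) ≤
      2 * (1 + max C₁ 0 + max C₂ 0) / ‖c‖ / (b : ℝ) ^ L := by
    rw [div_div, div_le_div_iff₀ hVc (by positivity)]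
    have h4 : (1 + max C₁ 0 + max C₂ 0) * ‖c‖ * (b : ℝ) ^ L ≤
        (1 + max C₁ 0 + max C₂ 0) * ‖c‖ * (2 * V) :=
      mul_le_mul_of_nonneg_left hVb (by positivity)
    linarith
  linarith

end Pool.Agent.W511.ND.CR
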